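import Pool.Agent.UR78.Plen

/-!
# The first-order consequences of class theory with urelements, Collection and Global Choice

The language `L` of set theory with urelements has a unary predicate for being a set and
membership. `ZFCU M` says that `M` is a model of `ZFCU` (with the Collection scheme).
`GBUR M C η` says that `M` with the classes `C` is a model of `GBU_R` with the axiom of choice for
sets; `ClassCollection` and `GlobalChoice` are the class form of Collection and Global Choice.

`SetOrPlenitude M` says that in `M` the urelements form a set or Plenitude holds, that is, every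
set is in bijection with a set of urelements.
-/

namespace Pool.Agent.Results.MP_1b98ab_lc.ExactConsequences

open FirstOrder FirstOrder.Language
open Pool.Agent.Helper672.ZFA (L)
open Pool.Agent.H839R3 Pool.Agent.UR78

universe u

/-- There is a sentence `σ` which says that the urelements form a set or that Plenitude holds.
(1) The sentences that hold in all models of `GBcU_R` + Collection + Global Choice are exactly
the consequences of `ZFCU` + `σ`.
(2) A countable model of `ZFCU` is the first-order part of a model of `GBcU_R` + Collection +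
Global Choice if and only if `σ` holds in it.
(3) `σ` is not a consequence of `ZFCU`. -/
theorem result : ∃ σ : L.Sentence,
    (∀ (M : Type (u + 1)) [L.Structure M], M ⊨ σ ↔ SetOrPlenitude M) ∧
    (∀ τ : L.Sentence,
      (∀ (M C : Type (u + 1)) [L.Structure M] (η : M → C → Prop),
        GBUR M C η → ClassCollection M C η → GlobalChoice M C η → M ⊨ τ) ↔
      ∀ (M : Type (u + 1)) [L.Structure M], ZFCU M → M ⊨ σ → M ⊨ τ) ∧
    (∀ (M : Type (u + 1)) [L.Structure M] [Countable M], ZFCU M →
      (M ⊨ σ ↔ ∃ (C : Type (u + 1)) (η : M → C → Prop),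
        GBUR M C η ∧ ClassCollection M C η ∧ GlobalChoice M C η)) ∧
    ∃ (M : Type (u + 1)) (_ : L.Structure M), ZFCU M ∧ ¬ M ⊨ σ := by
  obtain ⟨σ, hσ⟩ := exists_sentence2.{u + 1}
  have h1 : ∀ (M C : Type (u + 1)) [L.Structure M] (η : M → C → Prop),
      GBUR M C η → ClassCollection M C η → GlobalChoice M C η → M ⊨ σ := by
    intro M C _ η h hc hg
    have := h.zfcur.zm
    exact (hσ M).2 (setOrPlenitude_iff.2 (setOrPlenty_of_class h hc hg))
  refine ⟨σ, hσ, fun τ => ⟨fun h M _ hM hs => ?_, fun h M C _ η h2 h3 h4 =>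
    h M (zfcu_of_class h2 h3) (h1 M C η h2 h3 h4)⟩, fun M _ _ hM => ⟨fun hs => ?_,
    fun ⟨C, η, h2, h3, h4⟩ => h1 M C η h2 h3 h4⟩, ?_⟩
  · have : Nonempty M := by
      obtain ⟨i, -⟩ := hM.infinity
      exact ⟨i⟩
    obtain ⟨S, hS⟩ := exists_countable M
    have h2 : ZFCU S := zfcu_substructure hM
    have := h2.toZFCUR.zm
    have h3 : SetOrPlenty S := setOrPlenitude_iff.1 ((hσ S).1 ((S.realize_sentence σ).2 hs))
    obtain ⟨C, η, h4, h5, h6⟩ := exists_classes2 h2 h3
    exact (S.realize_sentence τ).1 (h S C η h4 h5 h6)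
  · have := hM.toZFCUR.zm
    exact exists_classes2 hM (setOrPlenitude_iff.1 ((hσ M).1 hs))
  · refine ⟨Kern.N.{u}, inferInstance, Kern.zfcu, fun h => ?_⟩
    have := (Kern.zfcu.{u}).toZFCUR.zm
    rcases setOrPlenitude_iff.1 ((hσ Kern.N.{u}).1 h) with h3 | h3
    · exact Kern.not_set h3
    · obtain ⟨k, hk⟩ := Kern.bounded.{u}
      obtain ⟨B, hB, hB'⟩ := h3 k
      obtain ⟨f, hf⟩ := hk B hB
      exact hB' ⟨f, injP_iff.2 hf⟩

end Pool.Agent.Results.MP_1b98ab_lc.ExactConsequences
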